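import Mathlib
import Pool.Agent.T6.H78.CH.Main

set_option autoImplicit false

namespace Pool.Agent.Results.MP_66c627_co.PrimeExactlyDividing

open Pool.Agent.T6.H78.CH

/-- Let `t` be odd and suppose some prime `p` divides `t` exactly once. Then every normalised
`±1` 2-cocycle on `Z2 × Z2 × Zt` whose cocyclic matrix is Hadamard is non-symmetric, i.e. has
nontrivial transgression component. -/
theorem result :
    ∀ (t : ℕ) [NeZero t], Odd t → (∃ p : ℕ, p.Prime ∧ p ∣ t ∧ ¬ p ^ 2 ∣ t) →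
      ∀ ψ : (ZMod 2 × ZMod 2 × ZMod t) → (ZMod 2 × ZMod 2 × ZMod t) → ℤ,
        (∀ g h, ψ g h = 1 ∨ ψ g h = -1) →
        ψ 0 0 = 1 →
        (∀ g h k, ψ g h * ψ (g + h) k = ψ g (h + k) * ψ h k) →
        Matrix.of ψ * Matrix.transpose (Matrix.of ψ) =
          (4 * (t : ℤ)) • (1 : Matrix (ZMod 2 × ZMod 2 × ZMod t) (ZMod 2 × ZMod 2 × ZMod t) ℤ) →
        ∃ g h, ψ g h ≠ ψ h g := by
  intro t _ hodd ⟨p, hp, hpt, hpt2⟩ ψ hpm h0 hc hM
  by_contra hcon
  push Not at hcon
  classical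
  let σ : (ZMod 2 × ZMod 2 × ZMod t) → (ZMod 2 × ZMod 2 × ZMod t) → ℤˣ :=
    fun g h => if ψ g h = 1 then 1 else -1
  have hσ : ∀ g h, ((σ g h : ℤˣ) : ℤ) = ψ g h := by
    intro g h
    by_cases h1 : ψ g h = 1
    · simp [σ, h1]
    · have h2 := (hpm g h).resolve_left h1
      simp [σ, h1, h2]
  let c : SymC (ZMod 2 × ZMod 2 × ZMod t) :=
    { σ := σ
      h0 := by apply Units.ext; rw [hσ, h0]; rfl
      hc := by
        intro g h k
        apply Units.ext
        rw [Units.val_mul, Units.val_mul, hσ, hσ, hσ, hσ]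
        exact hc g h k
      hs := by
        intro g h
        apply Units.ext
        rw [hσ, hσ]
        exact hcon g h }
  have hψ0 : ∀ h, ψ 0 h = 1 := by
    intro h
    have := c.zero_left h
    rw [← hσ]
    have e : σ 0 h = 1 := this
    rw [e]; rfl
  have hrowsum : ∀ a, rowSum c a = (Matrix.of ψ * Matrix.transpose (Matrix.of ψ)) a 0 := by
    intro a
    rw [Matrix.mul_apply]
    unfold rowSum
    refine Finset.sum_congr rfl fun h _ => ?_
    rw [Matrix.transpose_apply, Matrix.of_apply, Matrix.of_apply, hψ0, mul_one]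
    exact hσ a h
  obtain ⟨s, hs⟩ := hpt
  have hp2 : p ≠ 2 := by
    rintro rfl
    rw [hs] at hodd
    exact (Nat.not_odd_iff_even.mpr (even_two_mul s)) hodd
  have hr : ¬ p ∣ 4 * s := by
    intro h
    rcases (Nat.Prime.dvd_mul hp).mp h with h | h
    · have : p ∣ 2 ^ 2 := by norm_num; exact h
      exact hp2 ((Nat.prime_dvd_prime_iff_eq hp Nat.prime_two).mp (hp.dvd_of_dvd_pow this))
    · obtain ⟨m, hm⟩ := h
      exact hpt2 ⟨m, by rw [hs, hm]; ring⟩
  refine main c p (4 * s) hp hp2 hr ?_ ?_ ?_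
  · rw [Fintype.card_prod, Fintype.card_prod, ZMod.card, ZMod.card, hs]; ring
  · intro a ha
    rw [hrowsum, hM, Matrix.smul_apply, Matrix.one_apply_ne ha, smul_zero]
  · rw [hrowsum, hM, Matrix.smul_apply, Matrix.one_apply_eq, hs]
    push_cast
    simp only [smul_eq_mul, mul_one]
    ring

end Pool.Agent.Results.MP_66c627_co.PrimeExactlyDividing
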