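import Pool.Agent.T6.H87.CH.Sq
import Pool.Agent.Helper949.Landau

set_option autoImplicit false

/-!
# Symmetric cocycles on `ℤ₂² × ℤ_t` and sums of two squares

If `t` is odd and there is a symmetric cocycle `ψ` on `G = ℤ₂² × ℤ_t` (trivial transgression component) such that the
cocyclic matrix is Hadamard, then `t` is a sum of two squares. So the answer to Q1 is positive for all odd `t > 1` which are
not sums of two squares, that is, for all odd `t` outside a set with at most `K N / √(log N)` elements up to `N`, which has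
density zero.

Proof. The extension of `G` by `±1` given by a symmetric cocycle is an abelian group; a character of it which is `-1` at the
element `-1`, raised to a suitable power, gives a function `χ : G → {±1, ±i}` with `χ(g) χ(h) = ψ(g,h) χ(g+h)`. Since the
rows of the matrix are orthogonal, `|∑ χ(g)|² = 4 t`, a sum of two squares of integers.
-/

namespace Pool.Agent.Results.MP_66c627_co.SumsOfTwoSquares

/-- The group `ℤ₂² × ℤ_t`. -/
abbrev Grp (t : ℕ) : Type := ZMod 2 × ZMod 2 × ZMod t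

/-- Q1 for `t`: every normalised cocycle with values `±1` on `ℤ₂² × ℤ_t` whose cocyclic matrix is a
Hadamard matrix is not symmetric (that is, its transgression component is nontrivial). -/
def Nontrivial (t : ℕ) : Prop := ∀ [NeZero t], ∀ ψ : Grp t → Grp t → ℤ,
  (∀ g h, ψ g h = 1 ∨ ψ g h = -1) → ψ 0 0 = 1 →
  (∀ g h k, ψ g h * ψ (g + h) k = ψ g (h + k) * ψ h k) →
  Matrix.of ψ * Matrix.transpose (Matrix.of ψ) = (4 * (t : ℤ)) • (1 : Matrix (Grp t) (Grp t) ℤ) →
  ∃ g h, ψ g h ≠ ψ h g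

open Pool.Agent.T6.H87.CH in
theorem sum_of_two (t : ℕ) [NeZero t] (hodd : Odd t) (ψ : Grp t → Grp t → ℤ)
    (h1 : ∀ g h, ψ g h = 1 ∨ ψ g h = -1) (h0 : ψ 0 0 = 1)
    (hc : ∀ g h k, ψ g h * ψ (g + h) k = ψ g (h + k) * ψ h k)
    (hM : Matrix.of ψ * Matrix.transpose (Matrix.of ψ) =
      (4 * (t : ℤ)) • (1 : Matrix (Grp t) (Grp t) ℤ))
    (hs : ∀ g h, ψ g h = ψ h g) : ∃ a b : ℤ, (t : ℤ) = a ^ 2 + b ^ 2 := by
  classical
  let f : Grp t → Grp t → ℤˣ := fun g h => if ψ g h = 1 then 1 else -1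
  have hf : ∀ g h, ((f g h : ℤˣ) : ℤ) = ψ g h := by
    intro g h
    show (((if ψ g h = 1 then 1 else -1 : ℤˣ)) : ℤ) = ψ g h
    rcases h1 g h with h2 | h2
    · rw [if_pos h2, h2]; rfl
    · rw [if_neg (by rw [h2]; norm_num), h2]; rfl
  let c : Coc (Grp t) :=
    { f := f
      zero := Units.ext (by rw [hf, h0]; rfl)
      coc := fun g h k => Units.ext (by
        rw [Units.val_mul, Units.val_mul, hf, hf, hf, hf, hc])
      symm := fun g h => Units.ext (by rw [hf, hf, hs]) }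
  have hG : ∀ g : Grp t, (2 * t) • g = 0 := by
    rintro ⟨x, y, z⟩
    have e1 : ∀ x : ZMod 2, (2 * t) • x = 0 := by
      intro x
      rw [nsmul_eq_mul, Nat.cast_mul]
      have : ((2 : ℕ) : ZMod 2) = 0 := by decide
      rw [this, zero_mul, zero_mul]
    have e2 : (2 * t) • z = 0 := by
      rw [nsmul_eq_mul, Nat.cast_mul, ZMod.natCast_self, mul_zero, zero_mul]
    simp only [Prod.smul_mk, e1, e2]
    rfl
  obtain ⟨χ, h4, hm⟩ := exists_chi c t hodd hG
  have hz : ∀ g, ψ 0 g = 1 := by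
    intro g
    rw [← hf]
    have := c.zero_left g
    show ((c.f 0 g : ℤˣ) : ℤ) = 1
    rw [this]; rfl
  have hH : ∀ g h, ∑ k, ψ g k * ψ h k = if g = h then 4 * (t : ℤ) else 0 := by
    intro g h
    have h2 := congrFun (congrFun hM g) h
    rw [Matrix.mul_apply] at h2
    simp only [Matrix.of_apply, Matrix.transpose_apply, Matrix.smul_apply, Matrix.one_apply,
      smul_eq_mul, mul_ite, mul_one, mul_zero] at h2
    exact h2
  obtain ⟨a, b, hab⟩ := sum_sq ψ h1 hs hz (4 * (t : ℤ)) hH χ h4 (fun g h => by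
    rw [hm]
    show (((c.f g h : ℤˣ) : ℤ) : ℂ) * χ (g + h) = _
    rw [show ((c.f g h : ℤˣ) : ℤ) = ψ g h from hf g h])
  have ha : a % 2 = 0 ∧ b % 2 = 0 := by
    have h3 : (a ^ 2 + b ^ 2) % 4 = 0 := by omega
    rcases Int.emod_two_eq_zero_or_one a with h5 | h5 <;>
      rcases Int.emod_two_eq_zero_or_one b with h6 | h6
    · exact ⟨h5, h6⟩
    all_goals
      exfalso
      obtain ⟨a', ha'⟩ : ∃ a', a = 2 * a' + a % 2 := ⟨a / 2, by omega⟩
      obtain ⟨b', hb'⟩ : ∃ b', b = 2 * b' + b % 2 := ⟨b / 2, by omega⟩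
      rw [h5] at ha'
      rw [h6] at hb'
      rw [ha', hb'] at h3
      ring_nf at h3
      omega
  obtain ⟨a', rfl⟩ : ∃ a', a = 2 * a' := ⟨a / 2, by omega⟩
  obtain ⟨b', rfl⟩ : ∃ b', b = 2 * b' := ⟨b / 2, by omega⟩
  exact ⟨a', b', by linarith⟩

open Classical in
/-- (1) Q1 holds for all odd `t > 1` which are not a sum of two squares. (2) There are at most
`K N / √(1 + log N)` odd `t` with `1 < t ≤ N` for which it fails. -/
theorem result :
    (∀ t : ℕ, 1 < t → Odd t → (¬ ∃ a b : ℤ, (t : ℤ) = a ^ 2 + b ^ 2) → Nontrivial t) ∧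
    ∃ K : ℝ, 0 ≤ K ∧ ∀ N : ℕ, 1 ≤ N →
      (((Finset.Icc 2 N).filter (fun t => Odd t ∧ ¬ Nontrivial t)).card : ℝ) ≤
        K * (N / Real.sqrt (1 + Real.log N)) := by
  have key : ∀ t : ℕ, 1 < t → Odd t → (¬ ∃ a b : ℤ, (t : ℤ) = a ^ 2 + b ^ 2) → Nontrivial t := by
    intro t _ hodd hno _ ψ h1 h0 hc hM
    by_contra hcon
    push Not at hcon
    exact hno (sum_of_two t hodd ψ h1 h0 hc hM hcon)
  refine ⟨key, ?_⟩
  obtain ⟨K, hK, hV⟩ := Pool.Agent.Helper949.Landau.V_bound
  refine ⟨K, hK, fun N hN => le_trans ?_ (hV N hN)⟩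
  have hsub : (Finset.Icc 2 N).filter (fun t => Odd t ∧ ¬ Nontrivial t) ⊆
      Pool.Agent.Helper949.Landau.V N := by
    intro t ht
    rw [Finset.mem_filter, Finset.mem_Icc] at ht
    unfold Pool.Agent.Helper949.Landau.V
    rw [Finset.mem_filter, Finset.mem_Ioc]
    refine ⟨⟨by omega, ht.1.2⟩, ?_⟩
    by_contra hno
    exact ht.2.2 (key t (by omega) ht.2.1 hno)
  exact_mod_cast Finset.card_le_card hsub

end Pool.Agent.Results.MP_66c627_co.SumsOfTwoSquares
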